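import Pool.Agent.Lib.H10C.Main

/-!
# Two-colour two-column Clickomania: a constant factor for columns of comparable height
-/

set_option autoImplicit false

namespace Pool.Agent.Results.MP_a38f7f_lc.BoundedRatio

open Pool.Agent.H10C

/-- There is a function computed by a Turing machine in polynomial time which assigns to every board
a legal sequence of moves such that, on every board whose column heights differ at most by the
factor `r`, no legal sequence deletes more than `max 11 (r + 1)` times as many tiles. -/
theorem result : ∃ f : Board → List Cell,
    Nonempty (Turing.TM2ComputableInPolyTime encodeBoard encodeMoves f) ∧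
    ∀ B : Board, ∃ E : Board, Play B (f B) E ∧
      ∀ r : ℕ, B.1.length ≤ r * B.2.length → B.2.length ≤ r * B.1.length →
        ∀ (s : List Cell) (F : Board), Play B s F →
          size B - size F ≤ max 11 (r + 1) * (size B - size E) := by
  refine ⟨algo, algo_tm, fun B => ?_⟩
  obtain ⟨E, h1, h2⟩ := algo_spec B
  exact ⟨E, h1, fun r h3 h4 s F h5 => ratio_of_stuck h1 h2 h5 r h3 h4⟩

end Pool.Agent.Results.MP_a38f7f_lc.BoundedRatio
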