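import Pool.Agent.Lib.H10C.Main

/-!
# Two-colour two-column Clickomania: the square root of the optimum on all boards
-/

set_option autoImplicit false

namespace Pool.Agent.Results.MP_a38f7f_lc.SquareRoot

open Pool.Agent.H10C

/-- There is a function computed by a Turing machine in polynomial time which assigns to every board
a legal sequence of moves such that no legal sequence deletes more than six times the square of the
number of tiles deleted by it. -/
theorem result : ∃ f : Board → List Cell,
    Nonempty (Turing.TM2ComputableInPolyTime encodeBoard encodeMoves f) ∧
    ∀ B : Board, ∃ E : Board, Play B (f B) E ∧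
      ∀ (s : List Cell) (F : Board), Play B s F → size B - size F ≤ 6 * (size B - size E) ^ 2 := by
  refine ⟨algo, algo_tm, fun B => ?_⟩
  obtain ⟨E, h1, h2⟩ := algo_spec B
  exact ⟨E, h1, fun s F h5 => square_of_stuck h1 h2 h5⟩

end Pool.Agent.Results.MP_a38f7f_lc.SquareRoot
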