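import Pool.Agent.Lib.H10C.Sharp

/-!
# Two-colour two-column Clickomania: playing until no move is left is not a constant factor
approximation
-/

set_option autoImplicit false

namespace Pool.Agent.Results.MP_a38f7f_lc.SquareSharp

open Pool.Agent.H10C

/-- There are boards with a maximal play (no move is left at its end) which deletes `v` tiles, `v`
being as large as wanted, and with another play which deletes at least `v ^ 2 / 2700` tiles. -/
theorem result : ∀ n : ℕ, ∃ (B E F : Board) (s s' : List Cell),
    Play B s E ∧ Stuck E ∧ Play B s' F ∧ n ≤ size B - size E ∧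
      (size B - size E) ^ 2 ≤ 2700 * (size B - size F) := by
  intro n
  obtain ⟨B, E, F, ⟨s, hs⟩, h1, ⟨s', hs'⟩, h2, h3⟩ := sharp n
  refine ⟨B, E, F, s, s', hs, h1, hs', ?_, h3⟩
  have h4 : n < 2 ^ n := Nat.lt_two_pow_self
  have h5 : 2 ^ n ≤ 2 ^ (2 * n + 2) := Nat.pow_le_pow_right (by norm_num) (by omega)
  omega

end Pool.Agent.Results.MP_a38f7f_lc.SquareSharp
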